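import Pool.Agent.H56.ER2.Targets

/-!
# Row EPX of the board `er2_modules`: existence of an even pair
-/

set_option autoImplicit false

namespace Pool.Agent.H99.ER2

open Pool.Agent.H48.ER Pool.Agent.H52.ER2 Pool.Agent.H66.ER2 Pool.Agent.H56.ER2

theorem pf_EPX (hFCT : T_FCT) (hRVZ : T_RVZ) (hASM : T_ASM) (hIC1 : T_IC1) (hIC2 : T_IC2)
    (hIC3 : T_IC3) (hLTB : T_LTB) (hIC4 : T_IC4) : T_EPX := by
  intro V _ G v n z hS hT
  have hF := hFCT V G v n z hS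
  obtain ⟨hS', hA', hB', _⟩ := hRVZ V G v n z hS
  have hF' := hFCT V G v n (rz n z) hS'
  have mA : ∀ a, a ∈ (Set.toFinite (sA G v n z)).toFinset ↔ a ∈ sA G v n z := fun a =>
    Set.Finite.mem_toFinset _
  have mB : ∀ b, b ∈ (Set.toFinite (sB G v n z)).toFinset ↔ b ∈ sB G v n z := fun b =>
    Set.Finite.mem_toFinset _
  have hM : ∀ a b b', LtB G v n z a b b' ↔ LtA G v n (rz n z) a b b' := fun a b b' =>
    (hLTB V G v n z a b b' hS).1
  obtain ⟨a, ha, b, hb, h1, h2⟩ := hIC4 V (Set.toFinite (sA G v n z)).toFinset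
    (Set.toFinite (sB G v n z)).toFinset (fun b a a' => LtA G v n z b a a')
    (fun a b b' => LtB G v n z a b b') ⟨z 0, (mA _).2 hF.z0⟩ ⟨z n, (mB _).2 hF.zn⟩
    (fun b _ a _ a' h => (mA _).2 (by
      obtain ⟨m, R, h, _⟩ := h
      exact h.inA))
    (fun a _ b _ b' h => (mB _).2 (by
      obtain ⟨m, R, h, _⟩ := h
      exact h.inB))
    (fun b _ a _ a' _ h => hASM V G v n z b a a' hS hT h)
    (fun a _ b _ b' _ h h' => hASM V G v n (rz n z) a b b' hS' hT ((hM _ _ _).1 h)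
      ((hM _ _ _).1 h'))
    (fun b _ a _ a' _ c hc h h3 h4 => hIC2 V G v n z a a' c b hS hF h ((mA _).1 hc) h3 h4)
    (fun a _ b _ b' _ c hc h h3 h4 => by
      have hc' : c ∈ sA G v n (rz n z) := by rw [hA']; exact (mB _).1 hc
      rcases hIC2 V G v n (rz n z) b b' c a hS' hF' ((hM _ _ _).1 h) hc' h3 h4 with h5 | h5
      · exact Or.inl ((hM _ _ _).2 h5)
      · exact Or.inr ((hM _ _ _).2 h5))
    (fun b _ b' hb' a _ a' _ h h3 => hIC3 V G v n z a a' b b' hS hF h ((mB _).1 hb') h3)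
  exact ⟨a, (mA _).1 ha, b, (mB _).1 hb, hIC1 V G v n z a b hS ((mA _).1 ha) ((mB _).1 hb) h1 h2⟩

end Pool.Agent.H99.ER2
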