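import Pool.Agent.H66.ER2.Targets

/-!
# Row MNH of the board `er2_modules`: no odd hole in the meet
-/

set_option autoImplicit false

namespace Pool.Agent.H99.ER2

open Pool.Agent.H48.ER Pool.Agent.H52.ER2 Pool.Agent.H66.ER2

section
variable {V : Type} {G : SimpleGraph V}

/-- a segment of a chordless path -/
theorem seg {n : ℕ} {g : ℕ → V} (h : PF G n g) {p q : ℕ} (hpq : p ≤ q) (hq : q ≤ n) :
    IP G (q - p) (g p) (g q) {w | ∃ k, p ≤ k ∧ k ≤ q ∧ g k = w} := by
  refine ⟨fun i => g (p + i), rfl, ?_, ?_, ?_, ?_⟩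
  · change g (p + (q - p)) = g q
    rw [Nat.add_sub_cancel' hpq]
  · intro i j hi hj e
    have := h.inj (p + i) (p + j) (by omega) (by omega) e
    omega
  · intro i j hi hj
    change G.Adj (g (p + i)) (g (p + j)) ↔ _
    rw [h.adj (p + i) (p + j) (by omega) (by omega)]
    omega
  · ext w
    constructor
    · rintro ⟨k, h1, h2, rfl⟩
      refine ⟨k - p, by omega, ?_⟩
      change g (p + (k - p)) = g k
      rw [Nat.add_sub_cancel' h1]
    · rintro ⟨i, hi, rfl⟩
      exact ⟨p + i, by omega, by omega, rfl⟩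

/-- the hypotheses on the two vertices and the path -/
structure Cx (G : SimpleGraph V) (s t : V) (n : ℕ) (g : ℕ → V) : Prop where
  noh : NOH G
  nop : NOP G
  st : s ≠ t
  nst : ¬ G.Adj s t
  pf : PF G n g
  ns : ∀ i, i ≤ n → g i ≠ s
  nt : ∀ i, i ≤ n → g i ≠ t
  s0 : G.Adj s (g 0)
  t0 : G.Adj t (g 0)
  sn : G.Adj s (g n)
  tn : G.Adj t (g n)
  no : ∀ i, 0 < i → i < n → ¬ (G.Adj s (g i) ∧ G.Adj t (g i))

theorem Cx.symm {s t : V} {n : ℕ} {g : ℕ → V} (h : Cx G s t n g) : Cx G t s n g where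
  noh := h.noh
  nop := h.nop
  st := h.st.symm
  nst := fun e => h.nst e.symm
  pf := h.pf
  ns := h.nt
  nt := h.ns
  s0 := h.t0
  t0 := h.s0
  sn := h.tn
  tn := h.sn
  no := fun i h1 h2 e => h.no i h1 h2 ⟨e.2, e.1⟩

/-- the path from `s` to `t` through a segment -/
theorem Cx.ends {s t : V} {n : ℕ} {g : ℕ → V} (h : Cx G s t n g) {p q : ℕ} (hp : 0 < p)
    (hpq : p < q) (hq : q < n) (hsp : G.Adj s (g p)) (htq : G.Adj t (g q))
    (hbt : ∀ k, p < k → k < q → ¬ G.Adj s (g k) ∧ ¬ G.Adj t (g k)) :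
    IP G (q - p + 1 + 1) s t (insert s (insert t {w | ∃ k, p ≤ k ∧ k ≤ q ∧ g k = w})) := by
  have hntp : ¬ G.Adj t (g p) := fun e => h.no p hp (by omega) ⟨hsp, e⟩
  have hnsq : ¬ G.Adj s (g q) := fun e => h.no q (by omega) hq ⟨e, htq⟩
  have h1 := seg h.pf hpq.le hq.le
  have h2 : IP G (q - p + 1) (g p) t (insert t {w | ∃ k, p ≤ k ∧ k ≤ q ∧ g k = w}) := by
    refine h1.snoc ?_ ?_
    · rintro ⟨k, _, hk, e⟩
      exact h.nt k (by omega) e
    · rintro w ⟨k, hk1, hk2, rfl⟩
      constructor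
      · intro e
        by_cases hkq : k = q
        · rw [hkq]
        · by_cases hkp : k = p
          · exact absurd (hkp ▸ e) hntp
          · exact absurd e (hbt k (by omega) (by omega)).2
      · intro e
        rw [e]
        exact htq
  refine h2.cons ?_ ?_
  · rintro (e | ⟨k, _, hk, e⟩)
    · exact h.st e
    · exact h.ns k (by omega) e
  · rintro w (rfl | ⟨k, hk1, hk2, rfl⟩)
    · constructor
      · intro e
        exact absurd e h.nst
      · intro e
        exact absurd e.symm (h.nt p (by omega))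
    · constructor
      · intro e
        by_cases hkp : k = p
        · rw [hkp]
        · by_cases hkq : k = q
          · exact absurd (hkq ▸ e) hnsq
          · exact absurd e (hbt k (by omega) (by omega)).1
      · intro e
        rw [e]
        exact hsp

/-- an apex on the path outside of the segment -/
theorem Cx.apex {s t : V} {n : ℕ} {g : ℕ → V} (h : Cx G s t n g) {p q : ℕ} (hp : 0 < p)
    (hpq : p < q) (hq : q < n) (hsp : G.Adj s (g p)) (htq : G.Adj t (g q))
    (hbt : ∀ k, p < k → k < q → ¬ G.Adj s (g k) ∧ ¬ G.Adj t (g k)) (r : ℕ) (hr : r ≤ n)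
    (hrs : G.Adj (g r) s) (hrt : G.Adj (g r) t) (hrp : r + 2 ≤ p ∨ q + 2 ≤ r) :
    Even (q - p) := by
  have h1 := h.ends hp hpq hq hsp htq hbt
  have h2 : Even (q - p + 1 + 1) := by
    refine h.noh _ _ _ (g r) _ h1 (by omega) ?_ hrs hrt ?_
    · rintro (e | e | ⟨k, hk1, hk2, e⟩)
      · exact h.ns r hr e
      · exact h.nt r hr e
      · have := h.pf.inj k r (by omega) hr e
        omega
    · rintro w (e | e | ⟨k, hk1, hk2, rfl⟩) hadj
      · exact Or.inl e
      · exact Or.inr e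
      · rw [h.pf.adj r k hr (by omega)] at hadj
        omega
  rcases h2 with ⟨c, hc⟩
  exact ⟨c - 1, by omega⟩

/-- the prism -/
theorem Cx.prism {s t : V} {n : ℕ} {g : ℕ → V} (h : Cx G s t n g) (hn : 3 ≤ n)
    (hs1 : G.Adj s (g 1)) (ht1 : G.Adj t (g (n - 1)))
    (hbt : ∀ k, 1 < k → k < n - 1 → ¬ G.Adj s (g k) ∧ ¬ G.Adj t (g k)) (hodd : Odd (n - 1 - 1)) :
    False := by
  have hnt1 : ¬ G.Adj t (g 1) := fun e => h.no 1 (by omega) (by omega) ⟨hs1, e⟩
  have hns1 : ¬ G.Adj s (g (n - 1)) := fun e => h.no (n - 1) (by omega) (by omega) ⟨e, ht1⟩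
  have p1 : IP G 1 s (g n) {s, g n} := IP.edge h.sn
  have p2 : IP G 1 (g 0) t {g 0, t} := IP.edge h.t0.symm
  have p3 := seg h.pf (show 1 ≤ n - 1 by omega) (show n - 1 ≤ n by omega)
  have ns : ∀ k, k ≤ n → s ≠ g k := fun k hk e => h.ns k hk e.symm
  have nt : ∀ k, k ≤ n → t ≠ g k := fun k hk e => h.nt k hk e.symm
  have inj := h.pf.inj
  have adj := h.pf.adj
  have d12 : Disjoint ({s, g n} : Set V) {g 0, t} := by
    rw [Set.disjoint_left]
    rintro w (e | e) (e' | e')
    · exact ns 0 (by omega) (e.symm.trans e')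
    · exact h.st (e.symm.trans e')
    · have := inj n 0 le_rfl (by omega) (e.symm.trans e')
      omega
    · exact h.nt n le_rfl (e.symm.trans e')
  have d13 : Disjoint ({s, g n} : Set V) {w | ∃ k, 1 ≤ k ∧ k ≤ n - 1 ∧ g k = w} := by
    rw [Set.disjoint_left]
    rintro w (e | e) ⟨k, hk1, hk2, e'⟩
    · exact h.ns k (by omega) (e'.trans e)
    · have := inj k n (by omega) le_rfl (e'.trans e)
      omega
  have d23 : Disjoint ({g 0, t} : Set V) {w | ∃ k, 1 ≤ k ∧ k ≤ n - 1 ∧ g k = w} := by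
    rw [Set.disjoint_left]
    rintro w (e | e) ⟨k, hk1, hk2, e'⟩
    · have := inj k 0 (by omega) (by omega) (e'.trans e)
      omega
    · exact h.nt k (by omega) (e'.trans e)
  have x12 : ∀ u ∈ ({s, g n} : Set V), ∀ v ∈ ({g 0, t} : Set V),
      G.Adj u v ↔ (u = s ∧ v = g 0) ∨ (u = g n ∧ v = t) := by
    rintro u (rfl | rfl) v (rfl | rfl)
    · exact ⟨fun _ => Or.inl ⟨rfl, rfl⟩, fun _ => h.s0⟩
    · refine ⟨fun e => absurd e h.nst, ?_⟩
      rintro (⟨_, e⟩ | ⟨e, _⟩)
      · exact absurd e (nt 0 (by omega))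
      · exact absurd e (ns n le_rfl)
    · constructor
      · intro e
        rw [adj n 0 le_rfl (by omega)] at e
        omega
      · rintro (⟨e, _⟩ | ⟨_, e⟩)
        · exact absurd e (h.ns n le_rfl)
        · exact absurd e (h.nt 0 (by omega))
    · exact ⟨fun _ => Or.inr ⟨rfl, rfl⟩, fun _ => h.tn.symm⟩
  have x13 : ∀ u ∈ ({s, g n} : Set V), ∀ v ∈ {w | ∃ k, 1 ≤ k ∧ k ≤ n - 1 ∧ g k = w},
      G.Adj u v ↔ (u = s ∧ v = g 1) ∨ (u = g n ∧ v = g (n - 1)) := by
    rintro u (rfl | rfl) v ⟨k, hk1, hk2, rfl⟩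
    · constructor
      · intro e
        left
        refine ⟨rfl, ?_⟩
        by_cases h1 : k = 1
        · rw [h1]
        · by_cases h2 : k = n - 1
          · exact absurd (h2 ▸ e) hns1
          · exact absurd e (hbt k (by omega) (by omega)).1
      · rintro (⟨_, e⟩ | ⟨e, _⟩)
        · rw [e]
          exact hs1
        · exact absurd e (ns n le_rfl)
    · rw [adj n k le_rfl (by omega)]
      constructor
      · intro e
        right
        refine ⟨rfl, ?_⟩
        have : k = n - 1 := by omega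
        rw [this]
      · rintro (⟨e, _⟩ | ⟨_, e⟩)
        · exact absurd e (h.ns n le_rfl)
        · have := inj k (n - 1) (by omega) (by omega) e
          omega
  have x23 : ∀ u ∈ ({g 0, t} : Set V), ∀ v ∈ {w | ∃ k, 1 ≤ k ∧ k ≤ n - 1 ∧ g k = w},
      G.Adj u v ↔ (u = g 0 ∧ v = g 1) ∨ (u = t ∧ v = g (n - 1)) := by
    rintro u (rfl | rfl) v ⟨k, hk1, hk2, rfl⟩
    · rw [adj 0 k (by omega) (by omega)]
      constructor
      · intro e
        left
        refine ⟨rfl, ?_⟩
        have : k = 1 := by omega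
        rw [this]
      · rintro (⟨_, e⟩ | ⟨e, _⟩)
        · have := inj k 1 (by omega) (by omega) e
          omega
        · exact absurd e (h.nt 0 (by omega))
    · constructor
      · intro e
        right
        refine ⟨rfl, ?_⟩
        by_cases h1 : k = n - 1
        · rw [h1]
        · by_cases h2 : k = 1
          · exact absurd (h2 ▸ e) hnt1
          · exact absurd e (hbt k (by omega) (by omega)).2
      · rintro (⟨e, _⟩ | ⟨_, e⟩)
        · exact absurd e (nt 0 (by omega))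
        · rw [e]
          exact ht1
  exact NOP.mk3 h.nop (mk3 p1 p2 p3 le_rfl le_rfl (by omega) d12 d13 d23 x12 x13 x23)
    ⟨odd_one, odd_one, hodd⟩

/-- one order of the two interior labels -/
theorem Cx.main {s t : V} {n : ℕ} {g : ℕ → V} (h : Cx G s t n g) {p q : ℕ}
    (hp : 0 < p) (hpq : p < q) (hq : q < n) (hsp : G.Adj s (g p)) (htq : G.Adj t (g q))
    (hbt : ∀ k, p < k → k < q → ¬ G.Adj s (g k) ∧ ¬ G.Adj t (g k)) (hodd : Odd (q - p)) :
    False := by
  by_cases h1 : 2 ≤ p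
  · exact Nat.not_even_iff_odd.2 hodd (h.apex hp hpq hq hsp htq hbt 0 (by omega) h.s0.symm
      h.t0.symm (Or.inl (by omega)))
  · by_cases h2 : q + 2 ≤ n
    · exact Nat.not_even_iff_odd.2 hodd (h.apex hp hpq hq hsp htq hbt n le_rfl h.sn.symm
        h.tn.symm (Or.inr h2))
    · have e1 : p = 1 := by omega
      have e2 : q = n - 1 := by omega
      subst e1 e2
      exact h.prism (by omega) hsp htq hbt hodd

/-- parity of the path -/
theorem Cx.even (hLAB : T_LAB) {s t : V} {n : ℕ} {g : ℕ → V} (h : Cx G s t n g) (hn : 2 ≤ n) :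
    Even n := by
  by_contra hc
  have hodd : Odd n := Nat.not_even_iff_odd.1 hc
  have hn3 : 3 ≤ n := by
    rcases hodd with ⟨c, hc⟩
    omega
  have gap : ∀ (a : V), (∀ i, i ≤ n → g i ≠ a) → ∀ i j, i < j → j ≤ n → G.Adj a (g i) →
      G.Adj a (g j) → (∀ k, i < k → k < j → ¬ G.Adj a (g k)) → j = i + 1 ∨ Even (j - i) := by
    intro a ha i j hij hj h1 h2 h3
    by_cases e : j = i + 1
    · exact Or.inl e
    · right
      refine h.noh (j - i) (g i) (g j) a _ (seg h.pf hij.le hj) (by omega) ?_ h1 h2 ?_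
      · rintro ⟨k, _, hk, e⟩
        exact ha k (by omega) e
      · rintro w ⟨k, hk1, hk2, rfl⟩ hadj
        by_cases e1 : k = i
        · exact Or.inl (by rw [e1])
        · by_cases e2 : k = j
          · exact Or.inr (by rw [e2])
          · exact absurd hadj (h3 k (by omega) (by omega))
  obtain ⟨i, j, hi0, hin, hj0, hjn, l1, l2, b1, b2, ho⟩ := hLAB n (fun i => G.Adj s (g i))
    (fun i => G.Adj t (g i)) hodd hn3 h.s0 h.t0 h.sn h.tn h.no
    (fun i j hij hj h1 h2 h3 => gap s h.ns i j hij hj h1 h2 h3)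
    (fun i j hij hj h1 h2 h3 => gap t h.nt i j hij hj h1 h2 h3)
  have hne : i ≠ j := by
    intro e
    rw [e] at ho
    exact Nat.not_even_iff_odd.2 ho ⟨j, rfl⟩
  rcases lt_or_gt_of_ne hne with hlt | hlt
  · refine h.main hi0 hlt hjn l1 l2 (fun k h1 h2 => b1 k h1 h2) ?_
    rcases ho with ⟨c, hc⟩
    exact ⟨c - i, by omega⟩
  · refine h.symm.main hj0 hlt hin l2 l1 (fun k h1 h2 => (b2 k h1 h2).symm) ?_
    rcases ho with ⟨c, hc⟩
    exact ⟨c - j, by omega⟩

theorem mt_adj (s t a b : V) : (mt G s t).Adj a b ↔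
    a ≠ t ∧ b ≠ t ∧ G.Adj a b ∧ (a = s → G.Adj t b) ∧ (b = s → G.Adj t a) := Iff.rfl

theorem mt_adj_ne {s t a b : V} (ha : a ≠ s) (hb : b ≠ s) (ha' : a ≠ t) (hb' : b ≠ t) :
    (mt G s t).Adj a b ↔ G.Adj a b := by
  rw [mt_adj]
  exact ⟨fun h => h.2.2.1, fun h => ⟨ha', hb', h, fun e => absurd e ha, fun e => absurd e hb⟩⟩

/-- the vertex `t` is isolated -/
theorem t_notMem {s t u v : V} {n : ℕ} {R : Set V} (h : IP (mt G s t) n u v R) (hn : 1 ≤ n) :
    t ∉ R := by
  obtain ⟨g, _, _, _, adj, hR⟩ := h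
  rw [hR]
  rintro ⟨i, hi, e⟩
  by_cases h0 : i = 0
  · have := (adj i 1 hi hn).2 (Or.inl (by omega))
    rw [e] at this
    exact this.1 rfl
  · have := (adj i (i - 1) hi (by omega)).2 (Or.inr (by omega))
    rw [e] at this
    exact this.1 rfl

/-- the hole with apex `s` -/
theorem apex_s (hLAB : T_LAB) {s t u v : V} {n : ℕ} {R : Set V} (hG : NOH G) (hP : NOP G)
    (hst : s ≠ t) (hns : ¬ G.Adj s t) (h : IP (mt G s t) n u v R) (hn : 2 ≤ n) (hs : s ∉ R)
    (hu : (mt G s t).Adj s u) (hv : (mt G s t).Adj s v)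
    (ho : ∀ w ∈ R, (mt G s t).Adj s w → w = u ∨ w = v) : Even n := by
  have ht : t ∉ R := t_notMem h (by omega)
  obtain ⟨g, g0, gn, inj, adj, hR⟩ := h
  have hgR : ∀ i, i ≤ n → g i ∈ R := fun i hi => by rw [hR]; exact ⟨i, hi, rfl⟩
  have ns : ∀ i, i ≤ n → g i ≠ s := fun i hi e => hs (e ▸ hgR i hi)
  have nt : ∀ i, i ≤ n → g i ≠ t := fun i hi e => ht (e ▸ hgR i hi)
  have hcx : Cx G s t n g :=
    { noh := hG
      nop := hP
      st := hst
      nst := hns
      pf := ⟨inj, fun i j hi hj => by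
        rw [← adj i j hi hj, mt_adj_ne (ns i hi) (ns j hj) (nt i hi) (nt j hj)]⟩
      ns := ns
      nt := nt
      s0 := by
        rw [g0]
        exact hu.2.2.1
      t0 := by
        rw [g0]
        exact hu.2.2.2.1 rfl
      sn := by
        rw [gn]
        exact hv.2.2.1
      tn := by
        rw [gn]
        exact hv.2.2.2.1 rfl
      no := by
        rintro i hi0 hin ⟨h1, h2⟩
        have h3 : (mt G s t).Adj s (g i) :=
          ⟨hst, nt i hin.le, h1, fun _ => h2, fun e => absurd e (ns i hin.le)⟩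
        rcases ho (g i) (hgR i hin.le) h3 with e | e
        · have := inj i 0 hin.le (by omega) (e.trans g0.symm)
          omega
        · have := inj i n hin.le le_rfl (e.trans gn.symm)
          omega }
  exact hcx.even hLAB hn

end

theorem pf_MNH (hROT : T_ROT) (hLAB : T_LAB) : T_MNH := by
  intro V G s t hG hP hst hns n u v c R h hn hc hu hv ho
  by_cases hsc : s = c
  · subst hsc
    exact apex_s hLAB hG hP hst hns h hn hc hu hv ho
  · by_cases hsR : s ∈ R
    · obtain ⟨u', v', R', h', hs', -, hu', hv', ho'⟩ := hROT V (mt G s t) n u v c R h hn hc hu hv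
        ho s hsR
      exact apex_s hLAB hG hP hst hns h' hn hs' hu' hv' ho'
    · have ht : t ∉ R := t_notMem h (by omega)
      have hct : c ≠ t := hu.1
      have key : ∀ a ∈ insert c R, ∀ b ∈ insert c R, (mt G s t).Adj a b ↔ G.Adj a b := by
        have h1 : ∀ a ∈ insert c R, a ≠ s ∧ a ≠ t := by
          rintro a (rfl | ha)
          · exact ⟨fun e => hsc e.symm, hct⟩
          · exact ⟨fun e => hsR (e ▸ ha), fun e => ht (e ▸ ha)⟩
        intro a ha b hb
        exact mt_adj_ne (h1 a ha).1 (h1 b hb).1 (h1 a ha).2 (h1 b hb).2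
      have hcR : c ∈ insert c R := Set.mem_insert _ _
      have hRR : ∀ a ∈ R, a ∈ insert c R := fun a ha => Set.mem_insert_of_mem _ ha
      refine hG n u v c R (h.congr fun a ha b hb => (key a (hRR a ha) b (hRR b hb)).symm) hn hc
        ((key c hcR u (hRR u h.left_mem)).1 hu) ((key c hcR v (hRR v h.right_mem)).1 hv) ?_
      intro w hw hadj
      exact ho w hw ((key c hcR w (hRR w hw)).2 hadj)

end Pool.Agent.H99.ER2
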