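import Pool.Agent.H56.ER2.Targets

/-!
# Row TWO of the board `er2_modules`: a vertex which sees two corners of a prism and something else
-/

set_option autoImplicit false

namespace Pool.Agent.H99.ER2

open Pool.Agent.H48.ER Pool.Agent.H52.ER2 Pool.Agent.H66.ER2 Pool.Agent.H56.ER2

/-- the hole through the rung `P k` -/
theorem two_ev {V : Type} {G : SimpleGraph V} {a b : Fin 3 → V} {n : Fin 3 → ℕ}
    {P : Fin 3 → Set V} {v : V} {i j k : Fin 3} {d : ℕ} {w : V} {L : Set V} (hG : NOH G)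
    (hP : Prism G a b n P) (hik : i ≠ k) (hjk : j ≠ k) (hij : i ≠ j) (hv : v ∉ ver P)
    (hvj : G.Adj v (a j)) (hk : ∀ r ∈ P k, ¬ G.Adj v r) (hL : IP G d w (b i) L)
    (hLP : L ⊆ P i) (hw : ∀ r ∈ L, G.Adj v r ↔ r = w) (ha : a i ∉ L) (hn : Even (n k)) :
    Even d := by
  have hd : Disjoint (P k) L := (hP.dis k i hik.symm).mono_right hLP
  have hx : XE G (P k) L (b k) (b i) := by
    intro r hr s hs
    rw [hP.adj k i hik.symm r hr s (hLP hs)]
    constructor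
    · rintro (⟨_, e⟩ | h)
      · exact absurd (e ▸ hs) ha
      · exact h
    · exact Or.inr
  have h1 : IP G (n k + d + 1) (a k) w (P k ∪ L) := (hP.ip k).append hL.rev hd hx
  have h2 : a j ∉ P k ∪ L := by
    rintro (h | h)
    · exact hjk (hP.rung (hP.a_mem j) h)
    · exact hij (hP.rung (hP.a_mem j) (hLP h)).symm
  have h3 : ∀ r ∈ P k ∪ L, G.Adj (a j) r ↔ r = a k := by
    rintro r (hr | hr)
    · rw [hP.adj j k hjk _ (hP.a_mem j) r hr]
      constructor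
      · rintro (⟨_, e⟩ | ⟨e, _⟩)
        · exact e
        · exact absurd e (hP.a_ne_b j j)
      · exact fun e => Or.inl ⟨rfl, e⟩
    · rw [hP.adj j i hij.symm _ (hP.a_mem j) r (hLP hr)]
      constructor
      · rintro (⟨_, e⟩ | ⟨e, _⟩)
        · exact absurd (e ▸ hr) ha
        · exact absurd e (hP.a_ne_b j j)
      · intro e
        exact absurd (hP.rung (hLP hr) (e ▸ hP.a_mem k)) hik
  have h4 := h1.cons h2 h3
  have h5 := hG _ _ _ v _ h4 (by omega) ?_ hvj ((hw w hL.left_mem).2 rfl) ?_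
  · rw [Nat.even_iff] at h5 hn ⊢
    omega
  · rintro (h | h | h)
    · exact hv (h ▸ mem_ver (hP.a_mem j))
    · exact hv (mem_ver h)
    · exact hv (mem_ver (hLP h))
  · rintro r (h | h | h) hr
    · exact Or.inl h
    · exact absurd hr (hk r h)
    · exact Or.inr ((hw r h).1 hr)

theorem pf_TWO (hEVN : T_EVN) (hLSN : T_LSN) (hPRD : T_PRD) : T_TWO := by
  intro V G a b n P v hC hP hv h1 h2 h0 hw
  by_contra hcon
  have hev : ∀ i, Even (n i) := (hEVN V G a b n P hC.noh hP).2 hC.nop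
  obtain ⟨d1, w1, L1, i1, s1, u1, m1, t1⟩ := hLSN V G v (a 1) (b 1) (n 1) (P 1) (hP.ip 1)
    ⟨a 1, hP.a_mem 1, h1⟩
  obtain ⟨d2, w2, L2, i2, s2, u2, m2, t2⟩ := hLSN V G v (a 2) (b 2) (n 2) (P 2) (hP.ip 2)
    ⟨a 2, hP.a_mem 2, h2⟩
  have key : ∀ (i j : Fin 3) (d e : ℕ) (w u : V) (L M : Set V), i ≠ j → IP G d w (b i) L →
      L ⊆ P i → IP G e u (b j) M → M ⊆ P j → (∀ r ∈ L, G.Adj v r ↔ r = w) →
      (∀ r ∈ M, G.Adj v r ↔ r = u) → ¬ (a i ∈ L ∧ a j ∈ M) → Odd (d + e) := by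
    intro i j d e w u L M hij hL hLP hM hMP hLv hMv hn
    rcases hPRD V G a b n P v i j d e w u L M hC.noh hP hij hv hL hLP hM hMP hLv hMv hn with
      h | ⟨rfl, rfl⟩
    · exact h
    · refine absurd ⟨i, j, hij, ?_, ?_⟩ hcon
      · exact (hLv _ hL.right_mem).2 (hL.eq_of_zero.1).symm
      · exact (hMv _ hM.right_mem).2 (hM.eq_of_zero.1).symm
  have hn12 : ¬ (a 1 ∈ L1 ∧ a 2 ∈ L2) := by
    rintro ⟨e1, e2⟩
    obtain ⟨w, hw1 | hw1, hwa, hwb, hvw⟩ := hw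
    · exact hwa ((t1 e1).2.2 w hw1 hvw)
    · exact hwb ((t2 e2).2.2 w hw1 hvw)
  have o12 := key 1 2 d1 d2 w1 w2 L1 L2 (by decide) i1 s1 i2 s2 u1 u2 hn12
  by_cases hc : ∃ r ∈ P 0, G.Adj v r
  · obtain ⟨d0, w0, L0, i0, s0, u0, m0, t0⟩ := hLSN V G v (a 0) (b 0) (n 0) (P 0) (hP.ip 0) hc
    have hn0 : a 0 ∉ L0 := fun e => h0 (by
      have h := (u0 w0 i0.left_mem).2 rfl
      rwa [(t0 e).1] at h)
    have o01 := key 0 1 d0 d1 w0 w1 L0 L1 (by decide) i0 s0 i1 s1 u0 u1 fun h => hn0 h.1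
    have o02 := key 0 2 d0 d2 w0 w2 L0 L2 (by decide) i0 s0 i2 s2 u0 u2 fun h => hn0 h.1
    rw [Nat.odd_iff] at o12 o01 o02
    omega
  · have hc' : ∀ r ∈ P 0, ¬ G.Adj v r := fun r hr h => hc ⟨r, hr, h⟩
    have e1 : Even d1 := by
      by_cases hm : a 1 ∈ L1
      · rw [(t1 hm).2.1]; exact hev 1
      · exact two_ev hC.noh hP (i := 1) (j := 2) (k := 0) (by decide) (by decide) (by decide) hv
          h2 hc' i1 s1 u1 hm (hev 0)
    have e2 : Even d2 := by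
      by_cases hm : a 2 ∈ L2
      · rw [(t2 hm).2.1]; exact hev 2
      · exact two_ev hC.noh hP (i := 2) (j := 1) (k := 0) (by decide) (by decide) (by decide) hv
          h1 hc' i2 s2 u2 hm (hev 0)
    rw [Nat.odd_iff] at o12
    rw [Nat.even_iff] at e1 e2
    omega

end Pool.Agent.H99.ER2
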